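import Pool.Agent.H92.EM.TC

/-!
# MP_75a732_an, board emd_modules, row MZK: the sets `Zk m κ`
-/

set_option autoImplicit false

namespace Pool.Agent.H19.EM.MZKrow

open Pool.Agent.H92.EQ Pool.Agent.H92.EM
open scoped BigOperators ComplexConjugate ContDiff Topology

noncomputable section

variable {k : ℕ}

theorem nsq_nonneg' (z : Fin (k + 1) → ℂ) : 0 ≤ nsq z :=
  Finset.sum_nonneg fun _ _ => by positivity

theorem nsq_pos {z : Fin (k + 1) → ℂ} (hz : z ≠ 0) : 0 < nsq z := by
  obtain ⟨i, hi⟩ := Function.ne_iff.mp hz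
  have h1 : 0 < ‖z i‖ ^ 2 := by
    have : 0 < ‖z i‖ := norm_pos_iff.2 hi
    positivity
  have h2 : ‖z i‖ ^ 2 ≤ nsq z :=
    Finset.single_le_sum (f := fun i => ‖z i‖ ^ 2) (fun _ _ => by positivity)
      (Finset.mem_univ i)
  linarith

theorem nrm_pos {z : Fin (k + 1) → ℂ} (hz : z ≠ 0) : 0 < nrm z := Real.sqrt_pos.2 (nsq_pos hz)

theorem nrm_zero' : nrm (0 : Fin (k + 1) → ℂ) = 0 := by
  unfold nrm nsq
  simp

theorem ell_eq (z : Fin (k + 1) → ℂ) : ell z = Real.log (nrm z) := by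
  unfold ell nrm
  rw [Real.log_sqrt (nsq_nonneg' z)]
  ring

theorem nrm_smul' (c : ℂ) (z : Fin (k + 1) → ℂ) : nrm (c • z) = ‖c‖ * nrm z := by
  unfold nrm nsq
  have : ∑ i, ‖(c • z) i‖ ^ 2 = ‖c‖ ^ 2 * ∑ i, ‖z i‖ ^ 2 := by
    rw [Finset.mul_sum]
    refine Finset.sum_congr rfl fun i _ => ?_
    rw [Pi.smul_apply, smul_eq_mul, norm_mul, mul_pow]
  rw [this, Real.sqrt_mul (by positivity), Real.sqrt_sq (norm_nonneg c)]

theorem continuous_nrm' : Continuous (nrm : (Fin (k + 1) → ℂ) → ℝ) := by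
  unfold nrm nsq
  fun_prop

theorem iter_diag {m d : ℕ} {F : Fin (k + 1) → MvPolynomial (Fin (k + 1)) ℂ} (h : IsM m d F)
    (i : Fin (k + 1)) (hi : (i : ℕ) < m) : ∀ n, iter F n i = MvPolynomial.X i ^ (d ^ n)
  | 0 => by simp [iter]
  | n + 1 => by
    change MvPolynomial.bind₁ (iter F n) (F i) = _
    rw [h.diag i hi, map_pow, MvPolynomial.bind₁_X_right, iter_diag h i hi n, ← pow_mul,
      pow_succ]

theorem ev_iter_diag {m d : ℕ} {F : Fin (k + 1) → MvPolynomial (Fin (k + 1)) ℂ}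
    (h : IsM m d F) (i : Fin (k + 1)) (hi : (i : ℕ) < m) (n : ℕ) (z : Fin (k + 1) → ℂ) :
    ev (iter F n) z i = z i ^ (d ^ n) := by
  unfold ev
  rw [iter_diag h i hi n]
  simp

theorem ev_diag {m d : ℕ} {F : Fin (k + 1) → MvPolynomial (Fin (k + 1)) ℂ}
    (h : IsM m d F) (i : Fin (k + 1)) (hi : (i : ℕ) < m) (z : Fin (k + 1) → ℂ) :
    ev F z i = z i ^ d := by
  unfold ev
  rw [h.diag i hi]
  simp

theorem ev_iter_one (F : Fin (k + 1) → MvPolynomial (Fin (k + 1)) ℂ) : iter F 1 = F := by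
  funext i
  change MvPolynomial.bind₁ (fun i => MvPolynomial.X i) (F i) = F i
  exact MvPolynomial.aeval_X_left_apply (F i)

theorem max_pow (a b : ℝ) (ha : 0 ≤ a) (hb : 0 ≤ b) (D : ℕ) : max (a ^ D) (b ^ D) =
    max a b ^ D := by
  rcases le_total a b with h | h
  · rw [max_eq_right h, max_eq_right (pow_le_pow_left₀ ha h D)]
  · rw [max_eq_left h, max_eq_left (pow_le_pow_left₀ hb h D)]

/-- One pull-back. -/
theorem step {a κ B x w : ℝ} {D : ℕ} (hD : 0 < D) (ha : 0 ≤ a) (hx : 0 < x) (hw : 0 < w)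
    (h1 : (D : ℝ) * (Real.log x - B) ≤ Real.log w) (h2 : Real.exp (-κ) * w ≤ a ^ D) :
    Real.exp (-(κ / D + B)) * x ≤ a := by
  have hDr : (0 : ℝ) < D := by exact_mod_cast hD
  have ha' : 0 < a := by
    rcases ha.lt_or_eq with h | h
    · exact h
    · rw [← h, zero_pow hD.ne'] at h2
      have : 0 < Real.exp (-κ) * w := by positivity
      linarith
  have h3 := Real.log_le_log (by positivity) h2
  rw [Real.log_mul (Real.exp_pos _).ne' hw.ne', Real.log_exp, Real.log_pow] at h3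
  have h4 : Real.log x - B - κ / D ≤ Real.log a := by
    rw [← mul_le_mul_iff_right₀ hDr]
    have : (D : ℝ) * (Real.log x - B - κ / D) = D * (Real.log x - B) - κ := by
      field_simp
    rw [this]
    linarith
  have h5 := Real.exp_le_exp.2 h4
  rw [Real.exp_log ha'] at h5
  refine le_trans (le_of_eq ?_) h5
  have : Real.log x - B - κ / D = -(κ / D + B) + Real.log x := by ring
  rw [this, Real.exp_add, Real.exp_log hx]

/-- The compactness bound for one pair. -/
theorem pair_bound {m d : ℕ} {F : Fin (k + 1) → MvPolynomial (Fin (k + 1)) ℂ} (hd : 2 ≤ d)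
    (hF : IsM m d F) {K : Set (Fin (k + 1) → ℂ)} (hK : AwayE m F K) (i j : Fin (k + 1))
    (hi : (i : ℕ) < m) (hj : (j : ℕ) < m) (hij : i ≠ j) :
    ∃ κ : ℝ, ∀ z ∈ K, Real.exp (-κ) * nrm z ≤ max ‖z i‖ ‖z j‖ := by
  classical
  obtain ⟨hcl, hcone, haway⟩ := hK
  have hd0 : d ≠ 0 := by omega
  -- positivity on `K`
  have hpos : ∀ z ∈ K, z ≠ 0 → 0 < max ‖z i‖ ‖z j‖ := by
    intro z hz hz0
    have h := haway {MvPolynomial.X i, MvPolynomial.X j} ?_ ?_ ?_ ?_ z hz hz0
    · by_contra hcon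
      apply h
      have h1 : ‖z i‖ ≤ 0 := le_trans (le_max_left _ _) (not_lt.mp hcon)
      have h2 : ‖z j‖ ≤ 0 := le_trans (le_max_right _ _) (not_lt.mp hcon)
      have h3 : z i = 0 := by simpa using h1
      have h4 : z j = 0 := by simpa using h2
      rintro p (rfl | rfl)
      · simpa using h3
      · simpa using h4
    · rintro p (rfl | rfl)
      · exact ⟨1, MvPolynomial.isHomogeneous_X _ _⟩
      · exact ⟨1, MvPolynomial.isHomogeneous_X _ _⟩
    · exact ⟨MvPolynomial.X i, Or.inl rfl, MvPolynomial.X_ne_zero _⟩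
    · intro b _
      by_cases hb : b = i
      · refine ⟨Pi.single j 1, ?_, ?_, MvPolynomial.X j, Or.inr rfl, ?_⟩
        · simp
        · rw [hb, Pi.single_eq_of_ne hij]
        · simp
      · refine ⟨Pi.single i 1, ?_, ?_, MvPolynomial.X i, Or.inl rfl, ?_⟩
        · simp
        · rw [Pi.single_eq_of_ne hb]
        · simp
    · intro y _
      constructor
      · intro h p hp
        rcases hp with rfl | rfl
        · have := h _ (Or.inl rfl)
          rw [MvPolynomial.eval_X, ev_diag hF i hi] at this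
          rw [MvPolynomial.eval_X]
          exact pow_eq_zero_iff hd0 |>.1 this
        · have := h _ (Or.inr rfl)
          rw [MvPolynomial.eval_X, ev_diag hF j hj] at this
          rw [MvPolynomial.eval_X]
          exact pow_eq_zero_iff hd0 |>.1 this
      · intro h p hp
        rcases hp with rfl | rfl
        · have := h _ (Or.inl rfl)
          rw [MvPolynomial.eval_X] at this
          rw [MvPolynomial.eval_X, ev_diag hF i hi, this, zero_pow hd0]
        · have := h _ (Or.inr rfl)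
          rw [MvPolynomial.eval_X] at this
          rw [MvPolynomial.eval_X, ev_diag hF j hj, this, zero_pow hd0]
  -- the compact set
  have hcomp : IsCompact ((K ∪ {0}) ∩ {z : Fin (k + 1) → ℂ | nrm z = 1}) := by
    refine Metric.isCompact_of_isClosed_isBounded
      (hcl.inter (isClosed_eq continuous_nrm' continuous_const)) ?_
    refine (Metric.isBounded_closedBall (x := (0 : Fin (k + 1) → ℂ)) (r := 1)).subset ?_
    rintro z ⟨-, hz⟩
    have hz' : nrm z = 1 := hz
    rw [mem_closedBall_zero_iff, pi_norm_le_iff_of_nonneg zero_le_one]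
    intro a
    have h1 : ‖z a‖ ^ 2 ≤ nsq z :=
      Finset.single_le_sum (f := fun i => ‖z i‖ ^ 2) (fun _ _ => by positivity)
        (Finset.mem_univ a)
    have h2 : nsq z = 1 := by
      have : nrm z ^ 2 = nsq z := Real.sq_sqrt (nsq_nonneg' z)
      rw [← this, hz', one_pow]
    rw [h2] at h1
    exact (sq_le_one_iff₀ (norm_nonneg _)).1 h1
  have hcont : Continuous fun z : Fin (k + 1) → ℂ => max ‖z i‖ ‖z j‖ := by fun_prop
  rcases ((K ∪ {0}) ∩ {z : Fin (k + 1) → ℂ | nrm z = 1}).eq_empty_or_nonempty with he | hne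
  · refine ⟨0, fun z hz => ?_⟩
    by_cases hz0 : z = 0
    · rw [hz0, nrm_zero', mul_zero]
      exact le_max_of_le_left (norm_nonneg _)
    · exfalso
      have hn := nrm_pos hz0
      have : (((nrm z)⁻¹ : ℝ) : ℂ) • z ∈ (K ∪ {0}) ∩ {z : Fin (k + 1) → ℂ | nrm z = 1} := by
        refine ⟨Or.inl (hcone z hz _ ?_), ?_⟩
        · exact_mod_cast (inv_pos.2 hn).ne'
        · change nrm _ = 1
          rw [nrm_smul', Complex.norm_real, Real.norm_of_nonneg (inv_pos.2 hn).le,
            inv_mul_cancel₀ hn.ne']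
      rw [he] at this
      exact this
  · obtain ⟨z0, hz0, hmin⟩ := hcomp.exists_isMinOn hne hcont.continuousOn
    have hz0n : nrm z0 = 1 := hz0.2
    have hz00 : z0 ≠ 0 := by
      intro h
      rw [h, nrm_zero'] at hz0n
      exact zero_ne_one hz0n
    have hz0K : z0 ∈ K := by
      rcases hz0.1 with h | h
      · exact h
      · exact absurd h hz00
    have hc := hpos z0 hz0K hz00
    refine ⟨-Real.log (max ‖z0 i‖ ‖z0 j‖), fun z hz => ?_⟩
    rw [neg_neg, Real.exp_log hc]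
    by_cases hz0 : z = 0
    · rw [hz0, nrm_zero', mul_zero]
      exact le_max_of_le_left (norm_nonneg _)
    · have hn := nrm_pos hz0
      have hmem : (((nrm z)⁻¹ : ℝ) : ℂ) • z ∈
          (K ∪ {0}) ∩ {z : Fin (k + 1) → ℂ | nrm z = 1} := by
        refine ⟨Or.inl (hcone z hz _ ?_), ?_⟩
        · exact_mod_cast (inv_pos.2 hn).ne'
        · change nrm _ = 1
          rw [nrm_smul', Complex.norm_real, Real.norm_of_nonneg (inv_pos.2 hn).le,
            inv_mul_cancel₀ hn.ne']
      have h1 := isMinOn_iff.1 hmin _ hmem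
      simp only [Pi.smul_apply, smul_eq_mul, norm_mul, Complex.norm_real,
        Real.norm_of_nonneg (inv_pos.2 hn).le] at h1
      rw [← mul_max_of_nonneg _ _ (inv_pos.2 hn).le] at h1
      have h2 := mul_le_mul_of_nonneg_right h1 hn.le
      calc max ‖z0 i‖ ‖z0 j‖ * nrm z ≤ (nrm z)⁻¹ * max ‖z i‖ ‖z j‖ * nrm z := h2
        _ = max ‖z i‖ ‖z j‖ := by field_simp

theorem pf_MZK (hKA : T_KA) : T_MZK := by
  intro m k d F _hm _hk hd hFM
  have hF : IsH d F := hFM.isH
  obtain ⟨-, -, B, hB, hGB, -⟩ := hKA (k + 1) d F hd hF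
  have hd1r : (1 : ℝ) < d := by exact_mod_cast (by omega : 1 < d)
  have hd0 : 0 < d := by omega
  -- `F^n` is nondegenerate
  have hnd : ∀ n (z : Fin (k + 1) → ℂ), z ≠ 0 → ev (iter F n) z ≠ 0 := by
    intro n
    induction n with
    | zero =>
      intro z hz
      have : ev (iter F 0) z = z := by
        funext i
        simp [ev, iter]
      rwa [this]
    | succ n ih =>
      intro z hz h
      have e : ev (iter F (n + 1)) z = ev F (ev (iter F n) z) := by
        funext i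
        change MvPolynomial.eval z (MvPolynomial.bind₁ (iter F n) (F i)) =
          MvPolynomial.eval (fun a => MvPolynomial.eval z (iter F n a)) (F i)
        rw [← MvPolynomial.coe_aeval_eq_eval, ← MvPolynomial.coe_aeval_eq_eval]
        simp only [RingHom.coe_coe]
        rw [MvPolynomial.aeval_bind₁]
      rw [e] at h
      exact ih z hz (hF.nd _ h)
  have hlog : ∀ n (z : Fin (k + 1) → ℂ), z ≠ 0 →
      ((d ^ n : ℕ) : ℝ) * (Real.log (nrm z) - B) ≤ Real.log (nrm (ev (iter F n) z)) := by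
    intro n z hz
    have h1 := (abs_le.1 (hGB n z hz)).1
    unfold Gn at h1
    rw [ell_eq, ell_eq] at h1
    have hdn : (0 : ℝ) < (d : ℝ) ^ n := by positivity
    have h2 : Real.log (nrm z) - B ≤ 1 / (d : ℝ) ^ n * Real.log (nrm (ev (iter F n) z)) := by
      linarith
    have h3 := mul_le_mul_of_nonneg_left h2 hdn.le
    push_cast
    calc (d : ℝ) ^ n * (Real.log (nrm z) - B) ≤
        (d : ℝ) ^ n * (1 / (d : ℝ) ^ n * Real.log (nrm (ev (iter F n) z))) := h3
      _ = _ := by field_simp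
  -- one step, for the level `n`
  have hstep : ∀ (n : ℕ) (κ : ℝ) (z : Fin (k + 1) → ℂ) (i j : Fin (k + 1)), (i : ℕ) < m →
      (j : ℕ) < m → z ≠ 0 →
      Real.exp (-κ) * nrm (ev (iter F n) z) ≤
        max ‖ev (iter F n) z i‖ ‖ev (iter F n) z j‖ →
      Real.exp (-(κ / ((d ^ n : ℕ) : ℝ) + B)) * nrm z ≤ max ‖z i‖ ‖z j‖ := by
    intro n κ z i j hi hj hz h
    refine step (D := d ^ n) (Nat.pow_pos hd0) (le_max_of_le_left (norm_nonneg _))
      (nrm_pos hz) (nrm_pos (hnd n z hz)) (hlog n z hz) ?_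
    rw [ev_iter_diag hFM i hi, ev_iter_diag hFM j hj, norm_pow, norm_pow,
      max_pow _ _ (norm_nonneg _) (norm_nonneg _)] at h
    exact h
  have hmono : ∀ {κ κ' : ℝ} {z : Fin (k + 1) → ℂ} {y : ℝ}, κ ≤ κ' →
      Real.exp (-κ) * nrm z ≤ y → Real.exp (-κ') * nrm z ≤ y := by
    intro κ κ' z y h h1
    refine le_trans (mul_le_mul_of_nonneg_right (Real.exp_le_exp.2 (by linarith)) ?_) h1
    exact Real.sqrt_nonneg _
  refine ⟨2 * B + 1, by linarith, ?_, ?_⟩
  · intro z hz i j hi hj hij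
    by_cases hz0 : z = 0
    · rw [hz0, nrm_zero', mul_zero]
      exact le_max_of_le_left (norm_nonneg _)
    · have h1 : Real.exp (-(2 * B + 1)) * nrm (ev F z) ≤ max ‖ev F z i‖ ‖ev F z j‖ :=
        hz i j hi hj hij
      have h2 := hstep 1 (2 * B + 1) z i j hi hj hz0 (by rw [ev_iter_one]; exact h1)
      refine hmono ?_ h2
      rw [pow_one]
      have : (2 * B + 1) / (d : ℝ) ≤ (2 * B + 1) / 2 :=
        div_le_div_of_nonneg_left (by linarith) (by norm_num) (by exact_mod_cast hd)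
      linarith
  · intro K hK
    have h1 : ∀ ij : Fin (k + 1) × Fin (k + 1), ∃ κ : ℝ, (ij.1 : ℕ) < m → (ij.2 : ℕ) < m →
        ij.1 ≠ ij.2 → ∀ z ∈ K, Real.exp (-κ) * nrm z ≤ max ‖z ij.1‖ ‖z ij.2‖ := by
      rintro ⟨i, j⟩
      by_cases h : (i : ℕ) < m ∧ (j : ℕ) < m ∧ i ≠ j
      · obtain ⟨κ, hκ⟩ := pair_bound hd hFM hK i j h.1 h.2.1 h.2.2
        exact ⟨κ, fun _ _ _ => hκ⟩
      · exact ⟨0, fun h1 h2 h3 => absurd ⟨h1, h2, h3⟩ h⟩
    choose κ hκ using h1
    obtain ⟨κ1, hκ1⟩ := Finite.exists_le κ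
    obtain ⟨n, hn⟩ := (tendsto_pow_atTop_atTop_of_one_lt hd1r).eventually_ge_atTop (max κ1 1)
      |>.exists
    refine ⟨n, fun z hz i j hi hj hij => ?_⟩
    by_cases hz0 : z = 0
    · rw [hz0, nrm_zero', mul_zero]
      exact le_max_of_le_left (norm_nonneg _)
    · have h2 := hmono (hκ1 (i, j)) (hκ (i, j) hi hj hij _ hz)
      have h3 := hstep n κ1 z i j hi hj hz0 h2
      refine hmono ?_ h3
      have hdn : (0 : ℝ) < (d : ℝ) ^ n := by positivity
      have : κ1 / ((d ^ n : ℕ) : ℝ) ≤ 1 := by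
        push_cast
        rw [div_le_one hdn]
        exact (le_max_left _ _).trans hn
      linarith

end

end Pool.Agent.H19.EM.MZKrow

open Pool.Agent.H92.EQ Pool.Agent.H92.EM in
theorem Pool.Agent.H19.EM.pf_MZK (hKA : T_KA) : T_MZK := Pool.Agent.H19.EM.MZKrow.pf_MZK hKA
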